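import Pool.Agent.Lib.MP_b2f128_an.D4

/-!
# MP_b2f128_an: the optimal constant in the plane is 1

`Pool.B2F.PP n c` is the statement `P_n(c)` of the problem.  In the plane the optimal constant
`C_2^*(2)` is `1`: the supremum of the `c > 0` with `P_2(c)` is `1`, and `P_2(c)` holds for all
`0 < c < 1`.
-/

namespace Pool.Agent.Results.MP_b2f128_an.PlanarConstant

/-- `C_2^*(2) = 1`: the supremum of the `c > 0` with `P_2(c)` is `1`; `P_2(c)` holds for every
`0 < c < 1`. -/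
theorem result : IsLUB {c : ℝ | 0 < c ∧ Pool.B2F.PP 2 c} 1 ∧
    ∀ c : ℝ, 0 < c → c < 1 → Pool.B2F.PP 2 c :=
  ⟨Pool.B2F.isLUB_one, fun _ h0 h1 => Pool.B2F.PP_of_lt h0 h1⟩

end Pool.Agent.Results.MP_b2f128_an.PlanarConstant
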