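import Pool.Agent.Lib.MP_b2f128_an.D4

/-!
# MP_b2f128_an: the optimal constant is at most 1 in every dimension

`Pool.B2F.PP n c` is the statement `P_n(c)` of the problem.
-/

namespace Pool.Agent.Results.MP_b2f128_an.UpperBound

/-- `P_n(c)` fails for all `n ≥ 3` and `c > 1`. -/
theorem result : ∀ n : ℕ, 3 ≤ n → ∀ c : ℝ, 1 < c → ¬ Pool.B2F.PP n c :=
  fun _ hn _ hc => Pool.B2F.not_PP_all (le_trans (by norm_num) hn) hc

end Pool.Agent.Results.MP_b2f128_an.UpperBound
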